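import Pool.Agent.Helper35.CB.Glue
import Pool.Agent.Helper14.CB.CofG

/-!
# CB, T-TRI: `SieveG` for polynomials of degree at most two
-/

set_option autoImplicit false

namespace Pool.Agent.Helper35.CB

open NumberField Polynomial Finset Pool.Agent.Helper4.CB Pool.Agent.Helper25.CB
open Pool.Agent.Helper10.TRI

theorem pow_mem_iff {K : Type} [Field K] [NumberField K] {m1 k : ℕ} (hk : 1 ≤ k) (q : Pl K) :
    ((m1 ^ k : ℕ) : 𝓞 K) ∈ q.asIdeal ↔ (m1 : 𝓞 K) ∈ q.asIdeal := by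
  rw [Nat.cast_pow]
  constructor
  · intro h
    exact q.isPrime.mem_of_pow_mem k h
  · intro h
    exact q.asIdeal.pow_mem_of_mem h k hk

theorem sieveG_two (K : Type) [Field K] [NumberField K] : SieveG K 2 := by
  intro D J0
  obtain ⟨J1, hJ1⟩ := Helper14.CB.exists_base K D 2
  obtain ⟨J, Y, hJ, hJJ, hY, h⟩ := glue_two K D (J0 + J1)
  refine ⟨J, Y, by omega, by omega, fun S hSD hS m1 hm1 hYm _ _ Z => ?_⟩
  obtain ⟨k, r, hk, hr, hbase⟩ := hJ1 J (by omega) S hSD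
    (fun P hP => ⟨(hS P hP).1, (hS P hP).2.1, (hS P hP).2.2.1, (hS P hP).2.2.2.2⟩) m1 hm1
    ((Dvd.intro _ rfl).trans hYm)
  have hY1 : Y ∣ m1 := (Dvd.intro_left _ rfl).trans hYm
  obtain ⟨u, v, h1, h2, h3, h4, -, h6, h7⟩ := h S hSD
    (fun P hP => ⟨(hS P hP).1, (hS P hP).2.1, (hS P hP).2.2.1, (hS P hP).2.2.2.1⟩)
    (m1 ^ k) r 1 (pow_ne_zero _ hm1) (hY1.trans (dvd_pow_self _ (by omega)))
    (hr.pow_right k) one_ne_zero
    (fun q hq => q.1.isPrime.ne_top ((Ideal.eq_top_iff_one _).2 hq))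
    (by
      intro u v hu hv
      obtain ⟨-, -, hb⟩ := hbase u v hu hv
      have key : ∀ q : Pl K, ((m1 ^ k : ℕ) : 𝓞 K) ∉ q.asIdeal → (m1 : 𝓞 K) ∉ q.asIdeal :=
        fun q hq h => hq ((pow_mem_iff hk q).2 h)
      have key' : ∀ q : Pl K, (m1 : 𝓞 K) ∉ q.asIdeal → ((m1 ^ k : ℕ) : 𝓞 K) ∉ q.asIdeal :=
        fun q hq h => hq ((pow_mem_iff hk q).1 h)
      constructor
      · intro q hq hq1 hvq
        obtain ⟨q', h1, h2, h3⟩ := (hb q hq1 (key q hq)).1 hvq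
        exact ⟨⟨q', key' q' h1⟩, h2, h3⟩
      · intro P hP q hq hq1 hvq
        rw [one_mul] at hvq ⊢
        obtain ⟨q', h1, h2, h3⟩ := (hb q hq1 (key q hq)).2 P hP hvq
        exact ⟨⟨q', key' q' h1⟩, h2, h3⟩) Z
  refine ⟨k, r, u, v, hk, hr, h1, h2, h4, ?_, ?_⟩
  · have h8 : ((1 : 𝓞 K) : K) = 1 := rfl
    rwa [h8, one_mul] at h6
  · intro p hp hmp
    obtain ⟨h9, h10⟩ := h7 p hp (fun h => hmp ((pow_mem_iff hk p).1 h))
    refine ⟨h9, fun P hP => ?_⟩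
    have := h10 P hP
    rwa [one_mul] at this

end Pool.Agent.Helper35.CB
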