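import Mathlib

/-!
# Isotropy of ternary forms from isotropy of the norm form
-/

set_option autoImplicit false

namespace Pool.Agent.Helper35.CB

/-- If the four dimensional form `⟨c₁, c₂, c₃, c₁ c₂ c₃⟩` is isotropic then so is
`⟨c₁, c₂, c₃⟩`. -/
theorem iso_of_norm {F : Type*} [Field F] {c₁ c₂ c₃ x y z t : F} (h₁ : c₁ ≠ 0)
    (h : c₁ * x ^ 2 + c₂ * y ^ 2 + c₃ * z ^ 2 + c₁ * c₂ * c₃ * t ^ 2 = 0)
    (h0 : x ≠ 0 ∨ y ≠ 0 ∨ z ≠ 0 ∨ t ≠ 0) :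
    ∃ X Y Z : F, (X ≠ 0 ∨ Y ≠ 0 ∨ Z ≠ 0) ∧ c₁ * X ^ 2 + c₂ * Y ^ 2 + c₃ * Z ^ 2 = 0 := by
  by_cases hW : z ^ 2 + c₁ * c₂ * t ^ 2 = 0
  · by_cases hzt : z = 0 ∧ t = 0
    · obtain ⟨rfl, rfl⟩ := hzt
      refine ⟨x, y, 0, ?_, ?_⟩
      · rcases h0 with h0 | h0 | h0 | h0
        · exact Or.inl h0
        · exact Or.inr (Or.inl h0)
        · exact absurd rfl h0
        · exact absurd rfl h0
      · linear_combination h
    · refine ⟨z, c₁ * t, 0, ?_, ?_⟩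
      · by_cases hz : z = 0
        · refine Or.inr (Or.inl (mul_ne_zero h₁ fun ht => hzt ⟨hz, ht⟩))
        · exact Or.inl hz
      · linear_combination c₁ * hW
  · refine ⟨x * z - c₂ * y * t, c₁ * x * t + y * z, z ^ 2 + c₁ * c₂ * t ^ 2,
      Or.inr (Or.inr hW), ?_⟩
    linear_combination (z ^ 2 + c₁ * c₂ * t ^ 2) * h

end Pool.Agent.Helper35.CB
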