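import Mathlib
import Pool.Agent.Helper35.CB.Iso

/-!
# Small values of ternary forms on the lattice of local solutions (Legendre, Thue, pigeonhole)
-/

set_option autoImplicit false

namespace Pool.Agent.Helper35.CB

open NumberField Module Finset

variable (L : Type*) [Field L] [NumberField L]

/-- the index of the integral basis -/
abbrev Ix := Free.ChooseBasisIndex ℤ (𝓞 L)

theorem card_ix : Fintype.card (Ix L) = finrank ℚ L := by
  rw [← finrank_eq_card_chooseBasisIndex ℤ (𝓞 L), RingOfIntegers.rank]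

/-- sum of the absolute values of the integral basis at all embeddings -/
noncomputable def SS : ℝ :=
  ∑ σ : L →+* ℂ, ∑ i, ‖σ (RingOfIntegers.basis L i : L)‖

theorem SS_nonneg : 0 ≤ SS L := by
  unfold SS
  positivity

variable {L}

/-- an algebraic integer with coordinates at most `N` has absolute values at most `N * SS` -/
theorem norm_le_of_coord (a : Ix L → ℤ) (N : ℝ) (hN : ∀ i, |(a i : ℝ)| ≤ N) (hN0 : 0 ≤ N)
    (σ : L →+* ℂ) :
    ‖σ ((∑ i, a i • RingOfIntegers.basis L i : 𝓞 L) : L)‖ ≤ N * SS L := by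
  have h1 : σ ((∑ i, a i • RingOfIntegers.basis L i : 𝓞 L) : L) =
      ∑ i, (a i : ℂ) * σ (RingOfIntegers.basis L i : L) := by
    have h2 : ((∑ i, a i • RingOfIntegers.basis L i : 𝓞 L) : L) =
        ∑ i, (a i : L) * (RingOfIntegers.basis L i : L) := by
      change algebraMap (𝓞 L) L _ = ∑ i, (a i : L) * algebraMap (𝓞 L) L _
      rw [map_sum]
      apply sum_congr rfl
      intro i _
      rw [zsmul_eq_mul, map_mul]
      simp
    rw [h2, map_sum]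
    apply sum_congr rfl
    intro i _
    rw [map_mul, map_intCast]
  rw [h1]
  calc ‖∑ i, (a i : ℂ) * σ (RingOfIntegers.basis L i : L)‖
      ≤ ∑ i, ‖(a i : ℂ) * σ (RingOfIntegers.basis L i : L)‖ := norm_sum_le _ _
    _ ≤ ∑ i, N * ‖σ (RingOfIntegers.basis L i : L)‖ := by
        apply sum_le_sum
        intro i _
        rw [norm_mul]
        apply mul_le_mul_of_nonneg_right _ (norm_nonneg _)
        simpa using hN i
    _ = N * ∑ i, ‖σ (RingOfIntegers.basis L i : L)‖ := by rw [mul_sum]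
    _ ≤ N * SS L := by
        apply mul_le_mul_of_nonneg_left _ hN0
        unfold SS
        exact single_le_sum (f := fun σ : L →+* ℂ => ∑ i, ‖σ (RingOfIntegers.basis L i : L)‖)
          (fun _ _ => by positivity) (mem_univ σ)

/-- the absolute value of the norm is the product over the embeddings -/
theorem abs_norm_eq_prod (x : 𝓞 L) :
    |((Algebra.norm ℤ x : ℤ) : ℝ)| = ∏ σ : L →+* ℂ, ‖σ (x : L)‖ := by
  have h1 := Algebra.norm_eq_prod_embeddings ℚ ℂ (x : L)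
  have h2 : ((Algebra.norm ℤ x : ℤ) : ℚ) = Algebra.norm ℚ (x : L) := Algebra.coe_norm_int x
  rw [← h2] at h1
  have h3 : ‖((Algebra.norm ℤ x : ℤ) : ℂ)‖ = ∏ σ : L →ₐ[ℚ] ℂ, ‖σ (x : L)‖ := by
    rw [← norm_prod, ← h1]
    simp
  rw [Complex.norm_intCast] at h3
  rw [h3]
  exact (Fintype.prod_equiv (RingHom.equivRatAlgHom L ℂ) (fun σ : L →+* ℂ => ‖σ (x : L)‖)
    (fun σ : L →ₐ[ℚ] ℂ => ‖σ (x : L)‖) (fun σ => rfl)).symm

/-- lower bound for one absolute value -/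
theorem le_norm_embedding {x : 𝓞 L} {B Λ : ℝ} (hB0 : 0 < B)
    (hB : ∀ σ : L →+* ℂ, ‖σ (x : L)‖ ≤ B)
    (h : B ^ finrank ℚ L ≤ Λ * |((Algebra.norm ℤ x : ℤ) : ℝ)|) (hΛ : 0 < Λ) (σ : L →+* ℂ) :
    B ≤ Λ * ‖σ (x : L)‖ := by
  classical
  have hcard : Fintype.card (L →+* ℂ) = finrank ℚ L := NumberField.Embeddings.card L ℂ
  rw [abs_norm_eq_prod, ← mul_prod_erase univ (fun σ : L →+* ℂ => ‖σ (x : L)‖) (mem_univ σ)] at h
  have h2 : ∏ τ ∈ univ.erase σ, ‖τ (x : L)‖ ≤ B ^ (finrank ℚ L - 1) := by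
    calc ∏ τ ∈ univ.erase σ, ‖τ (x : L)‖ ≤ ∏ τ ∈ univ.erase σ, B :=
          prod_le_prod (fun _ _ => norm_nonneg _) (fun τ _ => hB τ)
      _ = B ^ (finrank ℚ L - 1) := by
          rw [prod_const, card_erase_of_mem (mem_univ σ), card_univ, hcard]
  have hn : 0 < finrank ℚ L := finrank_pos
  have h3 : B ^ finrank ℚ L = B * B ^ (finrank ℚ L - 1) := by
    rw [← pow_succ', Nat.sub_add_cancel hn]
  have h4 : 0 < B ^ (finrank ℚ L - 1) := by positivity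
  rw [h3] at h
  have h5 : B * B ^ (finrank ℚ L - 1) ≤ (Λ * ‖σ (x : L)‖) * B ^ (finrank ℚ L - 1) := by
    refine h.trans ?_
    rw [← mul_assoc]
    exact mul_le_mul_of_nonneg_left h2 (by positivity)
  exact le_of_mul_le_mul_right h5 h4

/-- the pigeonhole principle in `(𝓞 L)^3` -/
theorem pigeon (c r : Fin 3 → 𝓞 L) (hc : ∀ i, c i ≠ 0) (X : Fin 3 → ℝ) (hX : ∀ i, 1 ≤ X i)
    (h : ∏ i, |((Algebra.norm ℤ (c i) : ℤ) : ℝ)| ≤ (∏ i, X i) ^ finrank ℚ L) :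
    ∃ x : Fin 3 → 𝓞 L, x ≠ 0 ∧ c 0 ∣ c 1 * x 1 - r 0 * x 2 ∧ c 1 ∣ c 2 * x 2 - r 1 * x 0 ∧
      c 2 ∣ c 0 * x 0 - r 2 * x 1 ∧
      ∀ i, ∀ σ : L →+* ℂ, ‖σ (x i : L)‖ ≤ 2 * X i * SS L := by
  classical
  set b := RingOfIntegers.basis L with hb
  set n := finrank ℚ L with hn
  have hnpos : 0 < n := finrank_pos
  -- box sizes
  let N : Fin 3 → ℕ := fun i => ⌊X i⌋₊ + 1
  have hNX : ∀ i, X i < N i := fun i => by
    simp only [N]
    push_cast
    exact Nat.lt_floor_add_one _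
  have hN2 : ∀ i, ((N i - 1 : ℕ) : ℝ) ≤ X i := fun i => by
    simp only [N, Nat.add_sub_cancel]
    exact Nat.floor_le (by linarith [hX i])
  let Dom := (i : Fin 3) → (Ix L → Fin (N i))
  let el : (i : Fin 3) → (Ix L → Fin (N i)) → 𝓞 L := fun i a => ∑ j, ((a j : ℕ) : ℤ) • b j
  let Cod := (i : Fin 3) → (𝓞 L ⧸ Ideal.span {c i})
  have : ∀ i, Finite (𝓞 L ⧸ Ideal.span {c i}) := fun i =>
    Ideal.finiteQuotientOfFreeOfNeBot _ (by simpa using hc i)
  letI : ∀ i, Fintype (𝓞 L ⧸ Ideal.span {c i}) := fun i => Fintype.ofFinite _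
  let F : Dom → Cod := fun a i => Ideal.Quotient.mk _
    (match i with
      | 0 => c 1 * el 1 (a 1) - r 0 * el 2 (a 2)
      | 1 => c 2 * el 2 (a 2) - r 1 * el 0 (a 0)
      | 2 => c 0 * el 0 (a 0) - r 2 * el 1 (a 1))
  have hcod : Fintype.card Cod = ∏ i, (Algebra.norm ℤ (c i)).natAbs := by
    simp only [Cod, Fintype.card_pi]
    apply prod_congr rfl
    intro i _
    rw [← Ideal.absNorm_span_singleton, Ideal.absNorm_apply, Submodule.cardQuot_apply,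
      Nat.card_eq_fintype_card]
  have hdom : Fintype.card Dom = ∏ i, (N i) ^ n := by
    simp only [Dom, Fintype.card_pi, prod_const, Fintype.card_fin]
    rw [card_univ, card_ix]
  have hlt : Fintype.card Cod < Fintype.card Dom := by
    rw [hcod, hdom, prod_pow]
    have h1 : ((∏ i, (Algebra.norm ℤ (c i)).natAbs : ℕ) : ℝ) ≤ (∏ i, X i) ^ n := by
      refine le_trans (le_of_eq ?_) h
      push_cast
      apply prod_congr rfl
      intro i _
      rw [Nat.cast_natAbs, Int.cast_abs]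
    have h2 : (∏ i, X i) ^ n < (∏ i, (N i : ℝ)) ^ n := by
      apply pow_lt_pow_left₀ _ (by
        apply prod_nonneg
        intro i _
        linarith [hX i]) hnpos.ne'
      apply prod_lt_prod_of_nonempty (fun i _ => by linarith [hX i]) (fun i _ => hNX i)
        ⟨0, mem_univ 0⟩
    have h3 : ((∏ i, (Algebra.norm ℤ (c i)).natAbs : ℕ) : ℝ) < (((∏ i, N i) ^ n : ℕ) : ℝ) := by
      push_cast at h1 ⊢
      exact lt_of_le_of_lt h1 h2
    exact_mod_cast h3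
  obtain ⟨a, a', hne, hF⟩ := Fintype.exists_ne_map_eq_of_card_lt F hlt
  have hF0 := congrFun hF 0
  have hF1 := congrFun hF 1
  have hF2 := congrFun hF 2
  simp only [F, Ideal.Quotient.eq, Ideal.mem_span_singleton] at hF0 hF1 hF2
  have hel : ∀ i, el i (a i) - el i (a' i) =
      ∑ j, (((a i j : ℕ) : ℤ) - ((a' i j : ℕ) : ℤ)) • b j := by
    intro i
    simp only [el, sub_smul, sum_sub_distrib]
  refine ⟨fun i => el i (a i) - el i (a' i), ?_, ?_, ?_, ?_, ?_⟩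
  · intro h0
    apply hne
    funext i j
    have h1 := congrFun h0 i
    simp only [Pi.zero_apply] at h1
    rw [hel] at h1
    have h2 := (Fintype.linearIndependent_iff.1 b.linearIndependent) _ h1 j
    apply Fin.ext
    omega
  · have : c 1 * (el 1 (a 1) - el 1 (a' 1)) - r 0 * (el 2 (a 2) - el 2 (a' 2)) =
        c 1 * el 1 (a 1) - r 0 * el 2 (a 2) - (c 1 * el 1 (a' 1) - r 0 * el 2 (a' 2)) := by ring
    simp only
    rw [this]
    exact hF0
  · have : c 2 * (el 2 (a 2) - el 2 (a' 2)) - r 1 * (el 0 (a 0) - el 0 (a' 0)) =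
        c 2 * el 2 (a 2) - r 1 * el 0 (a 0) - (c 2 * el 2 (a' 2) - r 1 * el 0 (a' 0)) := by ring
    simp only
    rw [this]
    exact hF1
  · have : c 0 * (el 0 (a 0) - el 0 (a' 0)) - r 2 * (el 1 (a 1) - el 1 (a' 1)) =
        c 0 * el 0 (a 0) - r 2 * el 1 (a 1) - (c 0 * el 0 (a' 0) - r 2 * el 1 (a' 1)) := by ring
    simp only
    rw [this]
    exact hF2
  · intro i σ
    simp only
    rw [hel]
    have h0 := norm_le_of_coord (fun j => ((a i j : ℕ) : ℤ) - ((a' i j : ℕ) : ℤ)) (X i)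
      (fun j => ?_) (by linarith [hX i]) σ
    · refine h0.trans ?_
      have := mul_nonneg (by linarith [hX i] : (0 : ℝ) ≤ X i) (SS_nonneg L)
      linarith
    · have h1 : ((a i j : ℕ)) ≤ N i - 1 := by have := (a i j).2; omega
      have h2 : ((a' i j : ℕ)) ≤ N i - 1 := by have := (a' i j).2; omega
      have h3 : ((a i j : ℕ) : ℝ) ≤ X i := le_trans (by exact_mod_cast h1) (hN2 i)
      have h4 : ((a' i j : ℕ) : ℝ) ≤ X i := le_trans (by exact_mod_cast h2) (hN2 i)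
      push_cast
      rw [abs_le]
      constructor <;> linarith [Nat.cast_nonneg (α := ℝ) (a i j : ℕ),
        Nat.cast_nonneg (α := ℝ) (a' i j : ℕ)]

/-- **Legendre's theorem up to a bounded factor.**  `C` depends only on the field and on `Λ`. -/
theorem legendre (L : Type*) [Field L] [NumberField L] (Λ : ℝ) :
    ∃ C : ℝ, ∀ (c r : Fin 3 → 𝓞 L) (B : Fin 3 → ℝ), (∀ i, c i ≠ 0) →
      IsCoprime (c 0) (c 1) → IsCoprime (c 0) (c 2) → IsCoprime (c 1) (c 2) →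
      c 0 ∣ r 0 ^ 2 + c 1 * c 2 → c 1 ∣ r 1 ^ 2 + c 0 * c 2 → c 2 ∣ r 2 ^ 2 + c 0 * c 1 →
      (∀ i, ∀ σ : L →+* ℂ, ‖σ (c i : L)‖ ≤ B i) →
      (∀ i, B i ^ finrank ℚ L ≤ Λ * |((Algebra.norm ℤ (c i) : ℤ) : ℝ)|) →
      ∃ x : Fin 3 → 𝓞 L, x ≠ 0 ∧ ∃ w : 𝓞 L,
        c 0 * x 0 ^ 2 + c 1 * x 1 ^ 2 + c 2 * x 2 ^ 2 = c 0 * c 1 * c 2 * w ∧
        ∀ σ : L →+* ℂ, ‖σ (w : L)‖ ≤ C := by
  classical
  refine ⟨12 * SS L ^ 2 * Λ ^ 3, ?_⟩
  intro c r B hc h01 h02 h12 hr0 hr1 hr2 hB hBn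
  have hnpos : 0 < finrank ℚ L := finrank_pos
  have hN1 : ∀ i, 1 ≤ |((Algebra.norm ℤ (c i) : ℤ) : ℝ)| := by
    intro i
    have h1 : Algebra.norm ℤ (c i) ≠ 0 := by
      rw [Ne, Algebra.norm_eq_zero_iff]
      exact hc i
    have h2 : 1 ≤ |Algebra.norm ℤ (c i)| := Int.one_le_abs h1
    exact_mod_cast h2
  obtain ⟨σ0⟩ : Nonempty (L →+* ℂ) := inferInstance
  have hB0 : ∀ i, 0 ≤ B i := fun i => (norm_nonneg _).trans (hB i σ0)
  have hBN : ∀ i, |((Algebra.norm ℤ (c i) : ℤ) : ℝ)| ≤ B i ^ finrank ℚ L := by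
    intro i
    rw [abs_norm_eq_prod]
    calc ∏ σ : L →+* ℂ, ‖σ (c i : L)‖ ≤ ∏ σ : L →+* ℂ, B i :=
          prod_le_prod (fun _ _ => norm_nonneg _) (fun σ _ => hB i σ)
      _ = B i ^ finrank ℚ L := by
          rw [prod_const, card_univ, NumberField.Embeddings.card L ℂ]
  have hB1 : ∀ i, 1 ≤ B i := by
    intro i
    by_contra hlt
    push Not at hlt
    have h1 : B i ^ finrank ℚ L < 1 := pow_lt_one₀ (hB0 i) hlt hnpos.ne'
    linarith [hN1 i, hBN i]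
  have hΛ : 0 < Λ := by
    by_contra hle
    push Not at hle
    have h1 : Λ * |((Algebra.norm ℤ (c 0) : ℤ) : ℝ)| ≤ 0 :=
      mul_nonpos_of_nonpos_of_nonneg hle (abs_nonneg _)
    have h2 : 0 < B 0 ^ finrank ℚ L := by have := hB1 0; positivity
    linarith [hBn 0]
  -- the box
  let X : Fin 3 → ℝ := fun i => match i with
    | 0 => √(B 1 * B 2)
    | 1 => √(B 0 * B 2)
    | 2 => √(B 0 * B 1)
  have hX : ∀ i, 1 ≤ X i := by
    intro i
    fin_cases i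
    · change 1 ≤ √(B 1 * B 2)
      rw [Real.one_le_sqrt]
      nlinarith [hB1 1, hB1 2]
    · change 1 ≤ √(B 0 * B 2)
      rw [Real.one_le_sqrt]
      nlinarith [hB1 0, hB1 2]
    · change 1 ≤ √(B 0 * B 1)
      rw [Real.one_le_sqrt]
      nlinarith [hB1 0, hB1 1]
  have hXX : ∏ i, X i = ∏ i, B i := by
    rw [Fin.prod_univ_three, Fin.prod_univ_three]
    change √(B 1 * B 2) * √(B 0 * B 2) * √(B 0 * B 1) = _
    rw [← Real.sqrt_mul (by have := hB0 1; have := hB0 2; positivity),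
      ← Real.sqrt_mul (by have := hB0 0; have := hB0 1; have := hB0 2; positivity)]
    rw [show B 1 * B 2 * (B 0 * B 2) * (B 0 * B 1) = (B 0 * B 1 * B 2) ^ 2 by ring]
    exact Real.sqrt_sq (by have := hB0 0; have := hB0 1; have := hB0 2; positivity)
  have hvol : ∏ i, |((Algebra.norm ℤ (c i) : ℤ) : ℝ)| ≤ (∏ i, X i) ^ finrank ℚ L := by
    rw [hXX, ← prod_pow]
    exact prod_le_prod (fun _ _ => abs_nonneg _) (fun i _ => hBN i)
  obtain ⟨x, hx0, hx1, hx2, hx3, hxσ⟩ := pigeon c r hc X hX hvol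
  refine ⟨x, hx0, ?_⟩
  -- divisibility
  set Q : 𝓞 L := c 0 * x 0 ^ 2 + c 1 * x 1 ^ 2 + c 2 * x 2 ^ 2 with hQ
  have hd0 : c 0 ∣ Q := by
    have h1 : c 0 ∣ c 1 * Q := by
      obtain ⟨p, hp⟩ := hx1
      obtain ⟨q, hq⟩ := hr0
      refine ⟨c 1 * x 0 ^ 2 + p * (c 1 * x 1 + r 0 * x 2) + q * x 2 ^ 2, ?_⟩
      rw [hQ]
      linear_combination (c 1 * x 1 + r 0 * x 2) * hp + x 2 ^ 2 * hq
    exact h01.dvd_of_dvd_mul_left h1
  have hd1 : c 1 ∣ Q := by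
    have h1 : c 1 ∣ c 2 * Q := by
      obtain ⟨p, hp⟩ := hx2
      obtain ⟨q, hq⟩ := hr1
      refine ⟨c 2 * x 1 ^ 2 + p * (c 2 * x 2 + r 1 * x 0) + q * x 0 ^ 2, ?_⟩
      rw [hQ]
      linear_combination (c 2 * x 2 + r 1 * x 0) * hp + x 0 ^ 2 * hq
    exact h12.dvd_of_dvd_mul_left h1
  have hd2 : c 2 ∣ Q := by
    have h1 : c 2 ∣ c 0 * Q := by
      obtain ⟨p, hp⟩ := hx3
      obtain ⟨q, hq⟩ := hr2
      refine ⟨c 0 * x 2 ^ 2 + p * (c 0 * x 0 + r 2 * x 1) + q * x 1 ^ 2, ?_⟩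
      rw [hQ]
      linear_combination (c 0 * x 0 + r 2 * x 1) * hp + x 1 ^ 2 * hq
    exact h02.symm.dvd_of_dvd_mul_left h1
  have hd : c 0 * c 1 * c 2 ∣ Q :=
    (IsCoprime.mul_left h02 h12).mul_dvd (h01.mul_dvd hd0 hd1) hd2
  obtain ⟨w, hw⟩ := hd
  refine ⟨w, hw, ?_⟩
  intro σ
  -- the size of `w`
  have hlow : ∀ i, B i ≤ Λ * ‖σ (c i : L)‖ := fun i =>
    le_norm_embedding (lt_of_lt_of_le one_pos (hB1 i)) (hB i) (hBn i) hΛ σ
  set S := SS L with hS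
  have hS0 : 0 ≤ S := SS_nonneg L
  have hP : 0 < B 0 * B 1 * B 2 := by
    have := hB1 0; have := hB1 1; have := hB1 2; positivity
  have hQn : ‖σ (Q : L)‖ ≤ 12 * S ^ 2 * (B 0 * B 1 * B 2) := by
    have hterm : ∀ i, ∀ P : ℝ, X i ^ 2 * B i = P →
        ‖σ (c i : L) * σ (x i : L) ^ 2‖ ≤ 4 * S ^ 2 * P := by
      intro i P hPi
      rw [norm_mul, norm_pow]
      calc ‖σ (c i : L)‖ * ‖σ (x i : L)‖ ^ 2 ≤ B i * (2 * X i * S) ^ 2 := by
            apply mul_le_mul (hB i σ) _ (by positivity) (hB0 i)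
            exact pow_le_pow_left₀ (norm_nonneg _) (hxσ i σ) 2
        _ = 4 * S ^ 2 * (X i ^ 2 * B i) := by ring
        _ = 4 * S ^ 2 * P := by rw [hPi]
    have hX0 : X 0 ^ 2 * B 0 = B 0 * B 1 * B 2 := by
      change √(B 1 * B 2) ^ 2 * B 0 = _
      rw [Real.sq_sqrt (by have := hB0 1; have := hB0 2; positivity)]; ring
    have hX1 : X 1 ^ 2 * B 1 = B 0 * B 1 * B 2 := by
      change √(B 0 * B 2) ^ 2 * B 1 = _
      rw [Real.sq_sqrt (by have := hB0 0; have := hB0 2; positivity)]; ring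
    have hX2 : X 2 ^ 2 * B 2 = B 0 * B 1 * B 2 := by
      change √(B 0 * B 1) ^ 2 * B 2 = _
      rw [Real.sq_sqrt (by have := hB0 0; have := hB0 1; positivity)]
    have hσQ : σ (Q : L) = σ (c 0 : L) * σ (x 0 : L) ^ 2 + σ (c 1 : L) * σ (x 1 : L) ^ 2 +
        σ (c 2 : L) * σ (x 2 : L) ^ 2 := by
      rw [hQ]
      simp only [map_add, map_mul, map_pow]
    rw [hσQ]
    refine (norm_add_le _ _).trans ?_
    have h0 := hterm 0 _ hX0
    have h1 := hterm 1 _ hX1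
    have h2 := hterm 2 _ hX2
    have h3 := norm_add_le (σ (c 0 : L) * σ (x 0 : L) ^ 2) (σ (c 1 : L) * σ (x 1 : L) ^ 2)
    linarith
  have hσw : ‖σ (Q : L)‖ = ‖σ (c 0 : L)‖ * ‖σ (c 1 : L)‖ * ‖σ (c 2 : L)‖ * ‖σ (w : L)‖ := by
    rw [hw]
    simp only [map_mul, norm_mul]
  have hprod : B 0 * B 1 * B 2 ≤
      Λ ^ 3 * (‖σ (c 0 : L)‖ * ‖σ (c 1 : L)‖ * ‖σ (c 2 : L)‖) := by
    calc B 0 * B 1 * B 2 ≤ (Λ * ‖σ (c 0 : L)‖) * (Λ * ‖σ (c 1 : L)‖) * (Λ * ‖σ (c 2 : L)‖) := by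
          apply mul_le_mul (mul_le_mul (hlow 0) (hlow 1) (hB0 1) (by positivity)) (hlow 2)
            (hB0 2) (by positivity)
      _ = _ := by ring
  have h4 : (B 0 * B 1 * B 2) * ‖σ (w : L)‖ ≤ (B 0 * B 1 * B 2) * (12 * S ^ 2 * Λ ^ 3) := by
    calc (B 0 * B 1 * B 2) * ‖σ (w : L)‖
        ≤ Λ ^ 3 * (‖σ (c 0 : L)‖ * ‖σ (c 1 : L)‖ * ‖σ (c 2 : L)‖) * ‖σ (w : L)‖ :=
          mul_le_mul_of_nonneg_right hprod (norm_nonneg _)
      _ = Λ ^ 3 * ‖σ (Q : L)‖ := by rw [hσw]; ring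
      _ ≤ Λ ^ 3 * (12 * S ^ 2 * (B 0 * B 1 * B 2)) :=
          mul_le_mul_of_nonneg_left hQn (by positivity)
      _ = _ := by ring
  exact le_of_mul_le_mul_left h4 hP

end Pool.Agent.Helper35.CB
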