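import Pool.Agent.Helper8.CB.Cof

/-!
# CB, INST, piece COF: the cofactor of a prime of norm `1` modulo `2 ^ J`
-/

set_option autoImplicit false

namespace Pool.Agent.Helper35.CB

open NumberField Polynomial Pool.Agent.Helper4.CB

variable {K : Type} [Field K] [NumberField K]

/-- congruent numbers have congruent norms (`Algebra.norm_eq_matrix_det`, `RingHom.map_det`) -/
theorem norm_congr (m : ℕ) {x y : 𝓞 K} (h : (m : 𝓞 K) ∣ x - y) :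
    (m : ℤ) ∣ Algebra.norm ℤ x - Algebra.norm ℤ y :=
  Helper8.CB.norm_congr m h

/-- **COF.**  `x ≡ r ^ e` modulo `m`, `2 ^ J ∣ m`, `r ≡ 5` modulo `2 ^ J`, `𝔮 ∣ x` with
`N 𝔮 ≡ 1` modulo `2 ^ J`: then the ideal `(x) / 𝔮` is not the unit ideal, because
`N x ≡ 5 ^ (e n)` is not `± 1` modulo `2 ^ J`; every prime divisor of it is prime to `m`. -/
theorem cofactor {J m r e : ℕ} (hJm : 2 ^ J ∣ m) (hr : r ≡ 5 [MOD 2 ^ J]) (hrm : r.Coprime m)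
    (he : 1 ≤ e) (hJ : 5 ^ (e * Module.finrank ℚ K) + 2 < 2 ^ J) {x : 𝓞 K}
    (hx : (m : 𝓞 K) ∣ x - (r : 𝓞 K) ^ e) (q : Pl K) (hq : nm q ≡ 1 [MOD 2 ^ J])
    (hxq : x ∈ q.asIdeal) :
    ∃ q' : Pm K m, x ∈ q'.1.asIdeal ∧ nm q'.1 * nm q ≤ (Algebra.norm ℤ x).natAbs :=
  Helper8.CB.cofactor hJm hr hrm he hJ hx q hq hxq

/-- a nonzero number in `𝔮` has norm at least `N 𝔮` -/
theorem nm_le_norm {x : 𝓞 K} (hx : x ≠ 0) (q : Pl K) (hxq : x ∈ q.asIdeal) :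
    nm q ≤ (Algebra.norm ℤ x).natAbs :=
  Helper8.CB.nm_le_norm hx q hxq

end Pool.Agent.Helper35.CB
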