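import Pool.Agent.Helper25.CB.SysK
import Pool.Agent.Helper4.CB.STX
import Pool.Agent.Helper4.CB.MERT
import Pool.Agent.Helper4.CB.BAD
import Pool.Agent.Helper75.CB.NormHv
import Pool.Agent.Helper56.CB.InstAux
import Pool.Agent.Helper14.CB.Hv
import Pool.Agent.Helper35.CB.InstCof
import Pool.Agent.Helper32.CB.CardLine

/-!
# CB, INST: the sieve statement for polynomials of degree at most two
-/

set_option autoImplicit false

namespace Pool.Agent.Helper35.CB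

open NumberField Polynomial Finset Pool.Agent.Helper4.CB Pool.Agent.Helper25.CB

variable {K : Type} [Field K] [NumberField K]

/-- a sum over places prime to `m` is at most the sum over all places -/
theorem sum_sub_le {m : ℕ} (A : Finset (Pm K m)) (B : Finset (Pl K)) (f : Pl K → ℝ)
    (hf : ∀ p, 0 ≤ f p) (h : ∀ q ∈ A, q.1 ∈ B) : ∑ q ∈ A, f q.1 ≤ ∑ p ∈ B, f p := by
  classical
  have h1 : ∑ q ∈ A, f q.1 = ∑ p ∈ A.map (Function.Embedding.subtype _), f p := by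
    rw [sum_map]
    rfl
  rw [h1]
  refine sum_le_sum_of_subset_of_nonneg ?_ (fun i _ _ => hf i)
  intro p hp
  rw [mem_map] at hp
  obtain ⟨q, hq, rfl⟩ := hp
  exact h q hq

theorem log_div_nonneg (p : Pl K) : 0 ≤ Real.log (nm p) / nm p := by
  have h := two_le_nm p
  refine div_nonneg (Real.log_nonneg ?_) (Nat.cast_nonneg _)
  exact_mod_cast (by omega : 1 ≤ nm p)

/-- an element congruent to a number prime to `m` avoids the places dividing `m` -/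
theorem notMem_of_congr {m r : ℕ} (hrm : r.Coprime m) {x : 𝓞 K} (hx : (m : 𝓞 K) ∣ x - (r : 𝓞 K))
    (p : Pl K) (hp : (m : 𝓞 K) ∈ p.asIdeal) : x ∉ p.asIdeal := by
  intro h
  have h1 : (r : 𝓞 K) ∈ p.asIdeal := by
    have h2 := p.asIdeal.sub_mem h (p.asIdeal.mem_of_dvd hx hp)
    rwa [sub_sub_cancel] at h2
  obtain ⟨a, b, hab⟩ := Nat.isCoprime_iff_coprime.2 hrm
  apply p.isPrime.ne_top
  rw [Ideal.eq_top_iff_one]
  have h3 : ((a * (r : ℤ) + b * (m : ℤ) : ℤ) : 𝓞 K) ∈ p.asIdeal := by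
    push_cast
    exact p.asIdeal.add_mem (p.asIdeal.mul_mem_left _ h1) (p.asIdeal.mul_mem_left _ hp)
  rwa [hab, Int.cast_one] at h3

theorem hv_congr_pow {P : (𝓞 K)[X]} (hP : P.Monic) {m r : ℕ} {u v : 𝓞 K}
    (hu : (m : 𝓞 K) ∣ u - (r : 𝓞 K)) :
    (m : 𝓞 K) ∣ hv P u (m * v) - (r : 𝓞 K) ^ P.natDegree := by
  have h1 : (m : 𝓞 K) ∣ hv P u (m * v) - u ^ P.natDegree :=
    (Dvd.intro _ rfl).trans (Helper14.CB.hv_sub hP u (m * v))
  have h2 : (m : 𝓞 K) ∣ u ^ P.natDegree - (r : 𝓞 K) ^ P.natDegree :=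
    hu.trans (sub_dvd_pow_sub_pow _ _ _)
  have h3 := dvd_add h1 h2
  rwa [sub_add_sub_cancel] at h3

/-- the factors of the system: `v` and the polynomials of `S` -/
noncomputable def facO (S : Finset (𝓞 K)[X]) (hS : ∀ P ∈ S, P.Monic) (m D : ℕ)
    (hD : ∑ P ∈ S, P.natDegree + 1 ≤ D) (hm : m ≠ 0)
    (hS2 : ∀ P ∈ S, P.Monic ∧ 1 ≤ P.natDegree ∧ P.natDegree ≤ 2 ∧
      Irreducible (P.map (algebraMap (𝓞 K) K))) :
    Option {P // P ∈ S} → Fac (Module.finrank ℚ K) (sysK S hS m D hD)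
  | none => facV S hS m D hD
  | some P => facP S hS m D hD hm P.1 (hS P.1 P.2) (hS2 P.1 P.2).2.1 (hS2 P.1 P.2).2.2.1
      (hS2 P.1 P.2).2.2.2

theorem exists_surj (S : Finset (𝓞 K)[X]) {D : ℕ} (h : S.card ≤ D) :
    ∃ f : Fin (D + 1) → Option {P // P ∈ S}, Function.Surjective f := by
  classical
  have h1 : Fintype.card (Option {P // P ∈ S}) ≤ Fintype.card (Fin (D + 1)) := by
    rw [Fintype.card_option, Fintype.card_coe, Fintype.card_fin]
    omega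
  obtain ⟨e⟩ := Function.Embedding.nonempty_of_card_le h1
  exact ⟨Function.invFun e, Function.invFun_surjective e.injective⟩

theorem rpow_gt (n z : ℕ) (hn : 1 ≤ n) : ∃ X0 : ℕ, ∀ X : ℕ, X0 ≤ X →
    ((z * X ^ n : ℕ) : ℝ) < (X : ℝ) ^ ((2 * n : ℝ) - 1 / 2) := by
  refine ⟨(z + 1) ^ 2 + 1, fun X hX => ?_⟩
  have hX1 : (1 : ℝ) ≤ X := by
    have : 1 ≤ X := by nlinarith
    exact_mod_cast this
  have hX0 : (0 : ℝ) < X := by linarith
  have h1 : (X : ℝ) ^ ((n : ℝ) + 1 / 2) ≤ (X : ℝ) ^ ((2 * n : ℝ) - 1 / 2) := by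
    refine Real.rpow_le_rpow_of_exponent_le hX1 ?_
    have : (1 : ℝ) ≤ n := by exact_mod_cast hn
    linarith
  refine lt_of_lt_of_le ?_ h1
  rw [Real.rpow_add hX0, Real.rpow_natCast, ← Real.sqrt_eq_rpow]
  push_cast
  rw [mul_comm]
  refine mul_lt_mul_of_pos_left ?_ (by positivity)
  rw [Real.lt_sqrt (Nat.cast_nonneg _)]
  have h2 : z ^ 2 < X := by nlinarith [Nat.zero_le z]
  exact_mod_cast h2

/-- the corner of the box: all coordinates of `u` are positive -/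
noncomputable def tau (K : Type) [Field K] [NumberField K] : 𝓞 K × 𝓞 K :=
  (∑ i, bas1 K i, 0)

theorem repr_tau (i : Fin (Module.finrank ℚ K)) : (bas1 K).repr (tau K).1 i = 1 := by
  unfold tau
  simp [map_sum, Finsupp.single_apply]

theorem mem_box_tau {g : 𝓞 K × 𝓞 K} {X : ℕ} (hg : g ∈ bx (eK K) (tau K) X) :
    (∀ i, 1 ≤ (bas1 K).repr g.1 i ∧ (bas1 K).repr g.1 i ≤ X) ∧
      ∀ i, 0 ≤ (bas1 K).repr g.2 i ∧ (bas1 K).repr g.2 i < X := by
  rw [mem_box] at hg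
  obtain ⟨h1, h2⟩ := hg
  constructor
  · intro i
    have h := h1 i
    rw [map_sub, Finsupp.sub_apply, repr_tau] at h
    constructor <;> linarith [h.1, h.2]
  · intro i
    have h := h2 i
    have h0 : g.2 - (tau K).2 = g.2 := sub_zero _
    rwa [h0] at h

theorem box_sub {g : 𝓞 K × 𝓞 K} {X : ℕ} (hX : 1 ≤ X) (hg : g ∈ bx (eK K) (tau K) X) :
    g ∈ bx (eK K) 0 (2 * X) := by
  obtain ⟨h1, h2⟩ := mem_box_tau hg
  rw [mem_box]
  have h0 : g.1 - (0 : 𝓞 K × 𝓞 K).1 = g.1 := sub_zero _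
  have h0' : g.2 - (0 : 𝓞 K × 𝓞 K).2 = g.2 := sub_zero _
  rw [h0, h0']
  have hX' : (1 : ℤ) ≤ X := by exact_mod_cast hX
  push_cast
  exact ⟨fun i => ⟨by linarith [(h1 i).1], by linarith [(h1 i).2]⟩,
    fun i => ⟨(h2 i).1, by linarith [(h2 i).2]⟩⟩

theorem fst_ne_zero {g : 𝓞 K × 𝓞 K} {X : ℕ} (hg : g ∈ bx (eK K) (tau K) X) : g.1 ≠ 0 := by
  intro h
  have h1 := ((mem_box_tau hg).1 ⟨0, Module.finrank_pos⟩).1
  rw [h, map_zero, Finsupp.zero_apply] at h1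
  omega

/-- **SX for degree at most two** -/
theorem sieveX_two (K : Type) [Field K] [NumberField K] : SieveX K 2 := by
  classical
  intro D J0
  have hn : 1 ≤ Module.finrank ℚ K := Module.finrank_pos
  obtain ⟨Cm, hCm0, hCm⟩ := mertens_upper K
  obtain ⟨Y0, ε, hε, hcore⟩ := core (Module.finrank ℚ K) (2 * D + 1) (D + 1) hn Cm
  obtain ⟨J1, hJ1⟩ := bad_sum K hε
  obtain ⟨C3, hC3⟩ := sum_nm_rpow K
  obtain ⟨J, hJ⟩ : ∃ J, J = J0 + J1 + (5 ^ (2 * Module.finrank ℚ K) + 2) + 1 := ⟨_, rfl⟩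
  have hJ5 : ∀ e : ℕ, e ≤ 2 → 5 ^ (e * Module.finrank ℚ K) + 2 < 2 ^ J := by
    intro e he
    have h1 : 5 ^ (e * Module.finrank ℚ K) ≤ 5 ^ (2 * Module.finrank ℚ K) :=
      Nat.pow_le_pow_right (by norm_num) (Nat.mul_le_mul_right _ he)
    have h2 : J < 2 ^ J := Nat.lt_two_pow_self
    omega
  have hJ51 : 1 ≤ 5 ^ (2 * Module.finrank ℚ K) := Nat.one_le_pow _ _ (by norm_num)
  refine ⟨J, by omega, by omega, fun S hSD hS m1 hm1 Z => ?_⟩
  -- the modulus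
  obtain ⟨m, hm⟩ : ∃ m, m = (m1 * 2 ^ J * Y0.factorial) * (m1 * 2 ^ J * Y0.factorial) := ⟨_, rfl⟩
  have hm' : m1 * 2 ^ J * Y0.factorial ∣ m := ⟨_, hm⟩
  have hM0 : m1 * 2 ^ J * Y0.factorial ≠ 0 :=
    mul_ne_zero (mul_ne_zero hm1 (by positivity)) (Nat.factorial_ne_zero _)
  have hm0 : m ≠ 0 := by rw [hm]; exact mul_ne_zero hM0 hM0
  have hmm1 : m1 ∣ m := (Dvd.intro (2 ^ J * Y0.factorial) (by ring)).trans hm'
  have hmJ : 2 ^ J ∣ m := (Dvd.intro (m1 * Y0.factorial) (by ring)).trans hm'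
  have hmY : Y0.factorial ∣ m := (Dvd.intro (m1 * 2 ^ J) (by ring)).trans hm'
  have hmK : (m : 𝓞 K) ≠ 0 := Nat.cast_ne_zero.2 hm0
  obtain ⟨r, hr5, -, hrm', -⟩ := Helper56.CB.exists_r J m (Nat.pos_of_ne_zero hm0)
  have hrm : r.Coprime m := Nat.Coprime.coprime_dvd_right (Dvd.intro _ rfl) hrm'
  have hm2 : m ≠ 1 := by
    intro h1
    rw [h1, Nat.dvd_one] at hmJ
    have := hJ5 0 (by norm_num)
    rw [hmJ] at this
    exact absurd this (by simp)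
  have hr0 : ∀ x : 𝓞 K, (m : 𝓞 K) ∣ x - (r : 𝓞 K) → x ≠ 0 := by
    rintro x hx rfl
    have h1 : (m : 𝓞 K) ∣ (r : 𝓞 K) := by
      rw [zero_sub, dvd_neg] at hx
      exact hx
    obtain ⟨a, b, hab⟩ := Nat.isCoprime_iff_coprime.2 hrm
    have h2 : (m : 𝓞 K) ∣ ((a * (r : ℤ) + b * (m : ℤ) : ℤ) : 𝓞 K) := by
      push_cast
      exact dvd_add (h1.mul_left _) (dvd_mul_left _ _)
    rw [hab, Int.cast_one] at h2
    have h3 : (m : ℤ) ∣ 1 := by
      obtain ⟨c, hc⟩ := h2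
      have h4 : Algebra.norm ℤ ((m : ℤ) : 𝓞 K) * Algebra.norm ℤ c = 1 := by
        rw [← map_mul, Int.cast_natCast, ← hc, map_one]
      have h5 : Algebra.norm ℤ ((m : ℤ) : 𝓞 K) = (m : ℤ) ^ Module.finrank ℤ (𝓞 K) := by
        have := Algebra.norm_algebraMap (S := 𝓞 K) (m : ℤ)
        simpa using this
      rw [h5, RingOfIntegers.rank] at h4
      exact (dvd_pow_self _ (by omega)).trans ⟨_, h4.symm⟩
    have h6 : m ∣ 1 := by exact_mod_cast h3
    exact hm2 (Nat.dvd_one.1 h6)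
  have hSm : ∀ P ∈ S, P.Monic := fun P hP => (hS P hP).1
  have hD : ∑ P ∈ S, P.natDegree + 1 ≤ 2 * D + 1 := by
    have h1 : ∑ P ∈ S, P.natDegree ≤ ∑ _P ∈ S, 2 := sum_le_sum (fun P hP => (hS P hP).2.2.1)
    rw [sum_const, smul_eq_mul] at h1
    omega
  obtain ⟨f, hf⟩ := exists_surj S hSD
  -- constants
  choose! C1 hC1 using fun P : (𝓞 K)[X] => Helper75.CB.norm_hv_le (K := K) P (m : 𝓞 K)
  obtain ⟨C2, hC2⟩ := Helper75.CB.norm_fst_le K
  obtain ⟨C4, hC4⟩ := Helper75.CB.norm_snd_le K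
  obtain ⟨C5, hC5⟩ := rad_both K (eK K)
  obtain ⟨C, hC⟩ : ∃ C, C = ∑ P ∈ S, C1 P * 2 ^ (P.natDegree * Module.finrank ℚ K) +
    C2 * 2 ^ Module.finrank ℚ K + C4 * 2 ^ Module.finrank ℚ K + C5 + ⌈C3⌉₊ := ⟨_, rfl⟩
  obtain ⟨X1, hX1⟩ := hcore (𝓞 K × 𝓞 K) (sysK S hSm m (2 * D + 1) hD) rfl
    (fun q => le_nm_of_factorial hmY q)
    (by
      intro x y hx hxy
      refine le_trans ?_ (hCm x y hx hxy)
      refine sum_sub_le (K := K) (m := m) _ _ (fun p => Real.log (nm p) / nm p) log_div_nonneg ?_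
      intro q hq
      have hq' := (@Finset.mem_filter _ _ (_) _ _).1 hq
      exact (@Finset.mem_filter _ _ (_) _ _).2 ⟨mem_plLE.2 ((Sys.mem_le _).1 hq'.1), hq'.2⟩)
    {q | nm q.1 ≡ 1 [MOD 2 ^ J]}
    (by
      intro x hx
      refine le_trans ?_ (hJ1 J (by omega) x hx)
      refine sum_sub_le (K := K) (m := m) _ _ (fun p => Real.log (nm p) / nm p) log_div_nonneg ?_
      intro q hq
      have hq' := (@Finset.mem_filter _ _ (_) _ _).1 hq
      exact (@Finset.mem_filter _ _ (_) _ _).2 ⟨mem_plLE.2 ((Sys.mem_le _).1 hq'.1), hq'.2⟩)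
    (fun l => facO S hSm m (2 * D + 1) hD hm0 hS (f l))
    (by
      intro q hq g hg
      right
      rcases EV_cover hSm q hg with h | ⟨P, hP, t, ht, hgt⟩
      · obtain ⟨l, hl⟩ := hf none
        refine ⟨l, ?_⟩
        rw [hl]
        exact ⟨q, rfl, h⟩
      · obtain ⟨l, hl⟩ := hf (some ⟨P, hP⟩)
        refine ⟨l, ?_⟩
        rw [hl]
        exact ⟨⟨q, ⟨t, ht⟩⟩, rfl, hgt⟩)
    (gam (Ideal.span {(m : 𝓞 K)})) ((r : 𝓞 K), (r : 𝓞 K)) (fun _ => tau K) C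
    (index_span_ne_zero hmK)
    (fun T => com_span T (fun q : Pm K m => q.1) (m : 𝓞 K) (fun q _ => q.2))
    (by
      -- the cofactor
      intro X hX g hg hg0 l p hp hgp
      have hgu : (m : 𝓞 K) ∣ g.1 - (r : 𝓞 K) := Ideal.mem_span_singleton.1 hg0.1
      have hgv : (m : 𝓞 K) ∣ g.2 - (r : 𝓞 K) := Ideal.mem_span_singleton.1 hg0.2
      revert p
      rcases f l with _ | P
      · intro p hp hgp
        obtain ⟨q', h1, h2⟩ := cofactor (K := K) (e := 1) hmJ hr5 hrm le_rfl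
          (hJ5 1 (by norm_num)) (x := g.2) (by rwa [pow_one]) p.1 hp hgp
        refine ⟨q', Or.inl h1, h2.trans ((hC4 (2 * X) (by omega) g (box_sub hX hg)).trans ?_)⟩
        show C4 * (2 * X) ^ Module.finrank ℚ K ≤ C * X ^ (1 * Module.finrank ℚ K)
        rw [one_mul, mul_pow, ← mul_assoc]
        exact Nat.mul_le_mul_right _ (by omega)
      · intro p hp hgp
        have h0 : hv P.1 g.1 ((m : 𝓞 K) * g.2) ∈ p.1.1.asIdeal := hom_of_root (rts_root p.2.2) hgp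
        obtain ⟨q', h1, h2⟩ := cofactor (K := K) (e := P.1.natDegree) hmJ hr5 hrm
          (hS P.1 P.2).2.1 (hJ5 _ (hS P.1 P.2).2.2.1) (x := hv P.1 g.1 ((m : 𝓞 K) * g.2))
          (hv_congr_pow (hS P.1 P.2).1 hgu) p.1.1 hp h0
        refine ⟨q', Or.inr ⟨P.1, P.2, h1⟩, h2.trans ((hC1 P.1 (2 * X) (by omega) g
          (box_sub hX hg)).trans ?_)⟩
        show C1 P.1 * (2 * X) ^ (P.1.natDegree * Module.finrank ℚ K) ≤
          C * X ^ (P.1.natDegree * Module.finrank ℚ K)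
        rw [mul_pow, ← mul_assoc]
        refine Nat.mul_le_mul_right _ ?_
        have h3 : C1 P.1 * 2 ^ (P.1.natDegree * Module.finrank ℚ K) ≤
            ∑ P ∈ S, C1 P * 2 ^ (P.natDegree * Module.finrank ℚ K) :=
          single_le_sum (f := fun P : (𝓞 K)[X] => C1 P * 2 ^ (P.natDegree * Module.finrank ℚ K))
            (fun _ _ => Nat.zero_le _) P.2
        omega)
    (by
      intro X hX g hg q hq
      have h1 := nm_le_norm (fst_ne_zero hg) q.1 hq.1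
      refine h1.trans ((hC2 (2 * X) (by omega) g (box_sub hX hg)).trans ?_)
      rw [mul_pow, ← mul_assoc]
      exact Nat.mul_le_mul_right _ (by omega))
    (by
      intro q ρ hρ
      have h1 := hC5 q.1 (gam q.1.asIdeal) (fun g => mem_gam) ρ hρ
      intro g
      obtain ⟨l, hl, h2⟩ := h1 g
      refine ⟨l, hl, fun i => (h2 i).trans ?_⟩
      have : C5 * ρ ≤ C * ρ := Nat.mul_le_mul_right _ (by omega)
      exact_mod_cast this)
    (by
      intro T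
      have h1 : ∑ q ∈ T, (nm q.1 : ℝ) ^ (-(3 / 2) : ℝ) ≤ C3 := by
        exact le_trans (Finset.sum_map T (Function.Embedding.subtype _)
          (fun v : Pl K => (nm v : ℝ) ^ (-(3 / 2) : ℝ))).ge
            (hC3 (T.map (Function.Embedding.subtype _)))
      refine h1.trans ((Nat.le_ceil C3).trans ?_)
      have : ⌈C3⌉₊ ≤ C := by omega
      exact_mod_cast this)
  -- the choice of the box
  obtain ⟨X2, hX2⟩ := rpow_gt (Module.finrank ℚ K) Z.card hn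
  have hA := hX1 (X1 + X2) (by omega)
  have hB := hX2 (X1 + X2) (by omega)
  obtain ⟨A, hAdef⟩ : ∃ A, A = (bx (eK K) (tau K) (X1 + X2)).filter (fun g =>
      g - ((r : 𝓞 K), (r : 𝓞 K)) ∈ gam (Ideal.span {(m : 𝓞 K)}) ∧
        (∀ q : Pm K m, nm q.1 ≡ 1 [MOD 2 ^ J] → g ∉ EV S (m : 𝓞 K) q.1) ∧
        ∀ q : Pm K m, g ∉ gam q.1.asIdeal) := ⟨_, rfl⟩
  have hAc : ((X1 + X2 : ℕ) : ℝ) ^ ((2 * Module.finrank ℚ K : ℝ) - 1 / 2) ≤ A.card := by
    refine hA.trans (le_of_eq ?_)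
    rw [hAdef]
    congr 2
  obtain ⟨B, hBdef⟩ : ∃ B, B = Z.biUnion (fun z => (bx (eK K) (tau K) (X1 + X2)).filter
      (fun g => (g.1 : K) = (z * m) * (g.2 : K))) := ⟨_, rfl⟩
  have hBc : B.card ≤ Z.card * (X1 + X2) ^ Module.finrank ℚ K := by
    rw [hBdef]
    refine card_biUnion_le.trans ((sum_le_card_nsmul _ _ ((X1 + X2) ^ Module.finrank ℚ K)
      (fun z _ => Helper32.CB.card_line K (z * m) _ (X1 + X2))).trans (le_of_eq (smul_eq_mul _ _)))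
  have hlt : B.card < A.card := by
    have h1 : (B.card : ℝ) < A.card := by
      refine lt_of_le_of_lt ?_ (hB.trans_le hAc)
      exact_mod_cast hBc
    exact_mod_cast h1
  obtain ⟨g, hgA, hgB⟩ := exists_mem_notMem_of_card_lt_card hlt
  rw [hAdef, mem_filter] at hgA
  obtain ⟨hgX, hg0, hgE, hgG⟩ := hgA
  have hgu : (m : 𝓞 K) ∣ g.1 - (r : 𝓞 K) := Ideal.mem_span_singleton.1 hg0.1
  have hgv : (m : 𝓞 K) ∣ g.2 - (r : 𝓞 K) := Ideal.mem_span_singleton.1 hg0.2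
  have hv0 : g.2 ≠ 0 := hr0 _ hgv
  refine ⟨m, r, g.1, g.2, hm0, hmm1, ⟨_, hm⟩, hrm, hv0, hgu, hgv, ?_, ?_, ?_⟩
  · refine Helper56.CB.coprime_of_places (fun p hp => notMem_of_congr hrm hgu p hp) ?_
    rintro p ⟨hp1, hp2⟩
    by_cases hp : (m : 𝓞 K) ∈ p.asIdeal
    · exact notMem_of_congr hrm hgu p hp hp1
    · exact hgG ⟨p, hp⟩ ⟨hp1, hp2⟩
  · intro hz
    apply hgB
    rw [hBdef, mem_biUnion]
    refine ⟨_, hz, mem_filter.2 ⟨hgX, ?_⟩⟩
    have h1 : (m : K) ≠ 0 := Nat.cast_ne_zero.2 hm0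
    have h2 : (g.2 : K) ≠ 0 := by
      intro h
      exact hv0 (RingOfIntegers.ext h)
    field_simp
  · intro p hp
    by_cases hpm : (m : 𝓞 K) ∈ p.asIdeal
    · refine ⟨notMem_of_congr hrm hgv p hpm, fun P hP => ?_⟩
      have h1 := hv_congr_pow (hSm P hP) (v := g.2) hgu
      have h2 : (r ^ P.natDegree).Coprime m := hrm.pow_left _
      exact notMem_of_congr h2 (by push_cast; exact h1) p hpm
    · have h1 := hgE ⟨p, hpm⟩ hp
      refine ⟨fun h => h1 (Or.inl h), fun P hP h => h1 (Or.inr ⟨P, hP, h⟩)⟩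

end Pool.Agent.Helper35.CB
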