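import Pool.Agent.Helper25.CB.SysG
import Pool.Agent.Helper35.CB.SieveTwo

/-!
# CB: the sieve with an arbitrary scaling, degree at most two
-/

set_option autoImplicit false

namespace Pool.Agent.Helper35.CB

open NumberField Polynomial Finset Pool.Agent.Helper4.CB Pool.Agent.Helper25.CB

variable {K : Type} [Field K] [NumberField K]

/-- the factors of the system: `v` and the polynomials of `S` -/
noncomputable def facOG (S : Finset (𝓞 K)[X]) (hS : ∀ P ∈ S, P.Monic) (m D : ℕ)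
    (hD : ∑ P ∈ S, P.natDegree + 1 ≤ D) (μ : 𝓞 K) (hμ : ∀ q : Pm K m, μ ∉ q.1.asIdeal)
    (hμ0 : μ ≠ 0)
    (hS2 : ∀ P ∈ S, P.Monic ∧ 1 ≤ P.natDegree ∧ P.natDegree ≤ 2 ∧
      Irreducible (P.map (algebraMap (𝓞 K) K))) :
    Option {P // P ∈ S} → Fac (Module.finrank ℚ K) (sysG S hS μ m D hμ hD)
  | none => facVG S hS μ m D hμ hD
  | some P => facPG S hS μ m D hμ hD hμ0 P.1 (hS P.1 P.2) (hS2 P.1 P.2).2.1 (hS2 P.1 P.2).2.2.1
      (hS2 P.1 P.2).2.2.2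

/-- a number congruent to a number prime to `m ≠ 1` is not zero -/
theorem ne_zero_of_congr {m r : ℕ} (hm2 : m ≠ 1) (hrm : r.Coprime m) (x : 𝓞 K)
    (hx : (m : 𝓞 K) ∣ x - (r : 𝓞 K)) : x ≠ 0 := by
  rintro rfl
  have hn : 1 ≤ Module.finrank ℚ K := Module.finrank_pos
  have h1 : (m : 𝓞 K) ∣ (r : 𝓞 K) := by
    rw [zero_sub, dvd_neg] at hx
    exact hx
  obtain ⟨a, b, hab⟩ := Nat.isCoprime_iff_coprime.2 hrm
  have h2 : (m : 𝓞 K) ∣ ((a * (r : ℤ) + b * (m : ℤ) : ℤ) : 𝓞 K) := by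
    push_cast
    exact dvd_add (h1.mul_left _) (dvd_mul_left _ _)
  rw [hab, Int.cast_one] at h2
  have h3 : (m : ℤ) ∣ 1 := by
    obtain ⟨c, hc⟩ := h2
    have h4 : Algebra.norm ℤ ((m : ℤ) : 𝓞 K) * Algebra.norm ℤ c = 1 := by
      rw [← map_mul, Int.cast_natCast, ← hc, map_one]
    have h5 : Algebra.norm ℤ ((m : ℤ) : 𝓞 K) = (m : ℤ) ^ Module.finrank ℤ (𝓞 K) := by
      have := Algebra.norm_algebraMap (S := 𝓞 K) (m : ℤ)
      simpa using this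
    rw [h5, RingOfIntegers.rank] at h4
    exact (dvd_pow_self _ (by omega)).trans ⟨_, h4.symm⟩
  have h6 : m ∣ 1 := by exact_mod_cast h3
  exact hm2 (Nat.dvd_one.1 h6)

/-- the cofactor property: an element `x` of a place `q` prime to `m` with `N q ≡ 1` modulo `M`
belongs to a further place prime to `m` -/
def Cofac {K : Type} [Field K] [NumberField K] (m M : ℕ) (x : 𝓞 K) : Prop :=
  ∀ q : Pl K, (m : 𝓞 K) ∉ q.asIdeal → nm q ≡ 1 [MOD M] → x ∈ q.asIdeal →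
    ∃ q' : Pm K m, x ∈ q'.1.asIdeal ∧ nm q'.1 * nm q ≤ (Algebra.norm ℤ x).natAbs

/-- **the sieve with scaling `μ`, degree at most two** -/
theorem glue_two (K : Type) [Field K] [NumberField K] (D J0 : ℕ) :
    ∃ J Y : ℕ, 1 ≤ J ∧ J0 ≤ J ∧ 2 ≤ Y ∧ ∀ S : Finset (𝓞 K)[X], S.card ≤ D →
    (∀ P ∈ S, P.Monic ∧ 1 ≤ P.natDegree ∧ P.natDegree ≤ 2 ∧
      Irreducible (P.map (algebraMap (𝓞 K) K))) →
    ∀ (m r : ℕ) (μ : 𝓞 K), m ≠ 0 → Y ∣ m → r.Coprime m → μ ≠ 0 →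
      (∀ q : Pm K m, μ ∉ q.1.asIdeal) →
      (∀ u v : 𝓞 K, (m : 𝓞 K) ∣ u - (r : 𝓞 K) → (m : 𝓞 K) ∣ v - (r : 𝓞 K) →
        Cofac m (2 ^ J) v ∧ ∀ P ∈ S, Cofac m (2 ^ J) (hv P u (μ * v))) →
      ∀ Z : Finset K, ∃ u v : 𝓞 K,
        (m : 𝓞 K) ∣ u - (r : 𝓞 K) ∧ (m : 𝓞 K) ∣ v - (r : 𝓞 K) ∧ u ≠ 0 ∧ v ≠ 0 ∧
        IsCoprime u ((m : 𝓞 K) * v) ∧ (u : K) / (μ * v) ∉ Z ∧
        ∀ p : Pl K, nm p ≡ 1 [MOD 2 ^ J] → (m : 𝓞 K) ∉ p.asIdeal →
          v ∉ p.asIdeal ∧ ∀ P ∈ S, hv P u (μ * v) ∉ p.asIdeal := by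
  classical
  have hn : 1 ≤ Module.finrank ℚ K := Module.finrank_pos
  obtain ⟨Cm, hCm0, hCm⟩ := mertens_upper K
  obtain ⟨Y0, ε, hε, hcore⟩ := core (Module.finrank ℚ K) (2 * D + 1) (D + 1) hn Cm
  obtain ⟨J1, hJ1⟩ := bad_sum K hε
  obtain ⟨C3, hC3⟩ := sum_nm_rpow K
  obtain ⟨J, hJ⟩ : ∃ J, J = J0 + J1 + (5 ^ (2 * Module.finrank ℚ K) + 2) + 1 := ⟨_, rfl⟩
  have hJ5 : ∀ e : ℕ, e ≤ 2 → 5 ^ (e * Module.finrank ℚ K) + 2 < 2 ^ J := by
    intro e he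
    have h1 : 5 ^ (e * Module.finrank ℚ K) ≤ 5 ^ (2 * Module.finrank ℚ K) :=
      Nat.pow_le_pow_right (by norm_num) (Nat.mul_le_mul_right _ he)
    have h2 : J < 2 ^ J := Nat.lt_two_pow_self
    omega
  have hJ51 : 1 ≤ 5 ^ (2 * Module.finrank ℚ K) := Nat.one_le_pow _ _ (by norm_num)
  have hY2 : 2 ≤ 2 ^ J * Y0.factorial := by
    have h1 : 2 ≤ 2 ^ J := by
      have h0 := hJ5 0 (by norm_num)
      rw [zero_mul, pow_zero] at h0
      omega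
    exact le_trans h1 (Nat.le_mul_of_pos_right _ (Nat.factorial_pos _))
  refine ⟨J, 2 ^ J * Y0.factorial, by omega, by omega, hY2,
    fun S hSD hS m r μ hm0 hYm hrm hμ0 hμ hcof Z => ?_⟩
  have hmY : Y0.factorial ∣ m := (Dvd.intro_left _ rfl).trans hYm
  have hmK : (m : 𝓞 K) ≠ 0 := Nat.cast_ne_zero.2 hm0
  have hm2 : m ≠ 1 := by
    rintro rfl
    have := Nat.le_of_dvd (by norm_num) hYm
    omega
  have hr0 : ∀ x : 𝓞 K, (m : 𝓞 K) ∣ x - (r : 𝓞 K) → x ≠ 0 := ne_zero_of_congr hm2 hrm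
  have hSm : ∀ P ∈ S, P.Monic := fun P hP => (hS P hP).1
  have hD : ∑ P ∈ S, P.natDegree + 1 ≤ 2 * D + 1 := by
    have h1 : ∑ P ∈ S, P.natDegree ≤ ∑ _P ∈ S, 2 := sum_le_sum (fun P hP => (hS P hP).2.2.1)
    rw [sum_const, smul_eq_mul] at h1
    omega
  obtain ⟨f, hf⟩ := exists_surj S hSD
  -- constants
  choose! C1 hC1 using fun P : (𝓞 K)[X] => Helper75.CB.norm_hv_le (K := K) P μ
  obtain ⟨C2, hC2⟩ := Helper75.CB.norm_fst_le K
  obtain ⟨C4, hC4⟩ := Helper75.CB.norm_snd_le K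
  obtain ⟨C5, hC5⟩ := rad_both K (eK K)
  obtain ⟨C, hC⟩ : ∃ C, C = ∑ P ∈ S, C1 P * 2 ^ (P.natDegree * Module.finrank ℚ K) +
    C2 * 2 ^ Module.finrank ℚ K + C4 * 2 ^ Module.finrank ℚ K + C5 + ⌈C3⌉₊ := ⟨_, rfl⟩
  obtain ⟨X1, hX1⟩ := hcore (𝓞 K × 𝓞 K) (sysG S hSm μ m (2 * D + 1) hμ hD) rfl
    (fun q => le_nm_of_factorial hmY q)
    (by
      intro x y hx hxy
      refine le_trans ?_ (hCm x y hx hxy)
      refine sum_sub_le (K := K) (m := m) _ _ (fun p => Real.log (nm p) / nm p) log_div_nonneg ?_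
      intro q hq
      have hq' := (@Finset.mem_filter _ _ (_) _ _).1 hq
      exact (@Finset.mem_filter _ _ (_) _ _).2 ⟨mem_plLE.2 ((Sys.mem_le _).1 hq'.1), hq'.2⟩)
    {q | nm q.1 ≡ 1 [MOD 2 ^ J]}
    (by
      intro x hx
      refine le_trans ?_ (hJ1 J (by omega) x hx)
      refine sum_sub_le (K := K) (m := m) _ _ (fun p => Real.log (nm p) / nm p) log_div_nonneg ?_
      intro q hq
      have hq' := (@Finset.mem_filter _ _ (_) _ _).1 hq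
      exact (@Finset.mem_filter _ _ (_) _ _).2 ⟨mem_plLE.2 ((Sys.mem_le _).1 hq'.1), hq'.2⟩)
    (fun l => facOG S hSm m (2 * D + 1) hD μ hμ hμ0 hS (f l))
    (by
      intro q hq g hg
      right
      rcases EVG_cover hSm q (hμ q) hg with h | ⟨P, hP, t, ht, hgt⟩
      · obtain ⟨l, hl⟩ := hf none
        refine ⟨l, ?_⟩
        rw [hl]
        exact ⟨q, rfl, h⟩
      · obtain ⟨l, hl⟩ := hf (some ⟨P, hP⟩)
        refine ⟨l, ?_⟩
        rw [hl]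
        exact ⟨⟨q, ⟨t, ht⟩⟩, rfl, hgt⟩)
    (gam (Ideal.span {(m : 𝓞 K)})) ((r : 𝓞 K), (r : 𝓞 K)) (fun _ => tau K) C
    (index_span_ne_zero hmK)
    (fun T => com_span T (fun q : Pm K m => q.1) (m : 𝓞 K) (fun q _ => q.2))
    (by
      -- the cofactor
      intro X hX g hg hg0 l p hp hgp
      have hgu : (m : 𝓞 K) ∣ g.1 - (r : 𝓞 K) := Ideal.mem_span_singleton.1 hg0.1
      have hgv : (m : 𝓞 K) ∣ g.2 - (r : 𝓞 K) := Ideal.mem_span_singleton.1 hg0.2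
      revert p
      rcases f l with _ | P
      · intro p hp hgp
        obtain ⟨q', h1, h2⟩ := (hcof g.1 g.2 hgu hgv).1 p.1 p.2 hp hgp
        refine ⟨q', Or.inl h1, h2.trans ((hC4 (2 * X) (by omega) g (box_sub hX hg)).trans ?_)⟩
        show C4 * (2 * X) ^ Module.finrank ℚ K ≤ C * X ^ (1 * Module.finrank ℚ K)
        rw [one_mul, mul_pow, ← mul_assoc]
        exact Nat.mul_le_mul_right _ (by omega)
      · intro p hp hgp
        have h0 : hv P.1 g.1 (μ * g.2) ∈ p.1.1.asIdeal := hom_of_root (rts_root p.2.2) hgp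
        obtain ⟨q', h1, h2⟩ := (hcof g.1 g.2 hgu hgv).2 P.1 P.2 p.1.1 p.1.2 hp h0
        refine ⟨q', Or.inr ⟨P.1, P.2, h1⟩, h2.trans ((hC1 P.1 (2 * X) (by omega) g
          (box_sub hX hg)).trans ?_)⟩
        show C1 P.1 * (2 * X) ^ (P.1.natDegree * Module.finrank ℚ K) ≤
          C * X ^ (P.1.natDegree * Module.finrank ℚ K)
        rw [mul_pow, ← mul_assoc]
        refine Nat.mul_le_mul_right _ ?_
        have h3 : C1 P.1 * 2 ^ (P.1.natDegree * Module.finrank ℚ K) ≤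
            ∑ P ∈ S, C1 P * 2 ^ (P.natDegree * Module.finrank ℚ K) :=
          single_le_sum (f := fun P : (𝓞 K)[X] => C1 P * 2 ^ (P.natDegree * Module.finrank ℚ K))
            (fun _ _ => Nat.zero_le _) P.2
        omega)
    (by
      intro X hX g hg q hq
      have h1 := nm_le_norm (fst_ne_zero hg) q.1 hq.1
      refine h1.trans ((hC2 (2 * X) (by omega) g (box_sub hX hg)).trans ?_)
      rw [mul_pow, ← mul_assoc]
      exact Nat.mul_le_mul_right _ (by omega))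
    (by
      intro q ρ hρ
      have h1 := hC5 q.1 (gam q.1.asIdeal) (fun g => mem_gam) ρ hρ
      intro g
      obtain ⟨l, hl, h2⟩ := h1 g
      refine ⟨l, hl, fun i => (h2 i).trans ?_⟩
      have : C5 * ρ ≤ C * ρ := Nat.mul_le_mul_right _ (by omega)
      exact_mod_cast this)
    (by
      intro T
      have h1 : ∑ q ∈ T, (nm q.1 : ℝ) ^ (-(3 / 2) : ℝ) ≤ C3 := by
        exact le_trans (Finset.sum_map T (Function.Embedding.subtype _)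
          (fun v : Pl K => (nm v : ℝ) ^ (-(3 / 2) : ℝ))).ge
            (hC3 (T.map (Function.Embedding.subtype _)))
      refine h1.trans ((Nat.le_ceil C3).trans ?_)
      have : ⌈C3⌉₊ ≤ C := by omega
      exact_mod_cast this)
  -- the choice of the box
  obtain ⟨X2, hX2⟩ := rpow_gt (Module.finrank ℚ K) Z.card hn
  have hA := hX1 (X1 + X2) (by omega)
  have hB := hX2 (X1 + X2) (by omega)
  obtain ⟨A, hAdef⟩ : ∃ A, A = (bx (eK K) (tau K) (X1 + X2)).filter (fun g =>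
      g - ((r : 𝓞 K), (r : 𝓞 K)) ∈ gam (Ideal.span {(m : 𝓞 K)}) ∧
        (∀ q : Pm K m, nm q.1 ≡ 1 [MOD 2 ^ J] → g ∉ EV S μ q.1) ∧
        ∀ q : Pm K m, g ∉ gam q.1.asIdeal) := ⟨_, rfl⟩
  have hAc : ((X1 + X2 : ℕ) : ℝ) ^ ((2 * Module.finrank ℚ K : ℝ) - 1 / 2) ≤ A.card := by
    refine hA.trans (le_of_eq ?_)
    rw [hAdef]
    congr 2
  obtain ⟨B, hBdef⟩ : ∃ B, B = Z.biUnion (fun z => (bx (eK K) (tau K) (X1 + X2)).filter
      (fun g => (g.1 : K) = (z * μ) * (g.2 : K))) := ⟨_, rfl⟩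
  have hBc : B.card ≤ Z.card * (X1 + X2) ^ Module.finrank ℚ K := by
    rw [hBdef]
    refine card_biUnion_le.trans ((sum_le_card_nsmul _ _ ((X1 + X2) ^ Module.finrank ℚ K)
      (fun z _ => Helper32.CB.card_line K (z * μ) _ (X1 + X2))).trans (le_of_eq (smul_eq_mul _ _)))
  have hlt : B.card < A.card := by
    have h1 : (B.card : ℝ) < A.card := by
      refine lt_of_le_of_lt ?_ (hB.trans_le hAc)
      exact_mod_cast hBc
    exact_mod_cast h1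
  obtain ⟨g, hgA, hgB⟩ := exists_mem_notMem_of_card_lt_card hlt
  rw [hAdef, mem_filter] at hgA
  obtain ⟨hgX, hg0, hgE, hgG⟩ := hgA
  have hgu : (m : 𝓞 K) ∣ g.1 - (r : 𝓞 K) := Ideal.mem_span_singleton.1 hg0.1
  have hgv : (m : 𝓞 K) ∣ g.2 - (r : 𝓞 K) := Ideal.mem_span_singleton.1 hg0.2
  have hv0 : g.2 ≠ 0 := hr0 _ hgv
  refine ⟨g.1, g.2, hgu, hgv, fst_ne_zero hgX, hv0, ?_, ?_, ?_⟩
  · refine Helper56.CB.coprime_of_places (fun p hp => notMem_of_congr hrm hgu p hp) ?_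
    rintro p ⟨hp1, hp2⟩
    by_cases hp : (m : 𝓞 K) ∈ p.asIdeal
    · exact notMem_of_congr hrm hgu p hp hp1
    · exact hgG ⟨p, hp⟩ ⟨hp1, hp2⟩
  · intro hz
    apply hgB
    rw [hBdef, mem_biUnion]
    refine ⟨_, hz, mem_filter.2 ⟨hgX, ?_⟩⟩
    have h1 : (μ : K) ≠ 0 := by
      intro h
      exact hμ0 (RingOfIntegers.ext h)
    have h2 : (g.2 : K) ≠ 0 := by
      intro h
      exact hv0 (RingOfIntegers.ext h)
    field_simp
  · intro p hp hpm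
    have h1 := hgE ⟨p, hpm⟩ hp
    exact ⟨fun h => h1 (Or.inl h), fun P hP h => h1 (Or.inr ⟨P, hP, h⟩)⟩

end Pool.Agent.Helper35.CB
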