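import Pool.Agent.Helper4.CB.SYS
import Pool.Agent.Helper4.CB.STM
import Pool.Agent.Helper25.CB.Lat

/-!
# CB, INST: the sieve system of a family of polynomials over the integers of a number field
-/

set_option autoImplicit false

namespace Pool.Agent.Helper35.CB

open NumberField Polynomial Pool.Agent.Helper4.CB Pool.Agent.Helper25.CB

variable {K : Type} [Field K] [NumberField K]

/-- the places of `K` which do not divide `m` -/
abbrev Pm (K : Type) [Field K] [NumberField K] (m : ℕ) := {q : Pl K // (m : 𝓞 K) ∉ q.asIdeal}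

/-- the set of all `(u, v)` such that `I` contains one of the values `P(u, m v)` or `v` -/
def EE {k : ℕ} (P : Fin k → (𝓞 K)[X]) (m : 𝓞 K) (I : Ideal (𝓞 K)) : Set (𝓞 K × 𝓞 K) :=
  {g | (∃ l, hv (P l) g.1 (m * g.2) ∈ I) ∨ g.2 ∈ I}

/-- the lattice of all `(u, v)` with `v ∈ I` -/
def lamv (I : Ideal (𝓞 K)) : AddSubgroup (𝓞 K × 𝓞 K) :=
  (Submodule.toAddSubgroup I).comap (AddMonoidHom.snd (𝓞 K) (𝓞 K))

theorem mem_lamv {I : Ideal (𝓞 K)} {g : 𝓞 K × 𝓞 K} : g ∈ lamv I ↔ g.2 ∈ I := Iff.rfl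

/-- the roots of `P` modulo `I` -/
abbrev Rt (P : (𝓞 K)[X]) (I : Ideal (𝓞 K)) : Type :=
  {t : 𝓞 K ⧸ I // (P.map (Ideal.Quotient.mk I)).eval t = 0}

/-- a representative of a root -/
noncomputable def rep {P : (𝓞 K)[X]} {I : Ideal (𝓞 K)} (t : Rt P I) : 𝓞 K := Quotient.out t.1

theorem mk_rep {P : (𝓞 K)[X]} {I : Ideal (𝓞 K)} (t : Rt P I) :
    Ideal.Quotient.mk I (rep t) = t.1 := Quotient.out_eq' t.1

theorem eval_rep {P : (𝓞 K)[X]} {I : Ideal (𝓞 K)} (t : Rt P I) : P.eval (rep t) ∈ I := by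
  rw [← Ideal.Quotient.eq_zero_iff_mem, ← t.2, ← mk_rep t, Polynomial.eval_map,
    Polynomial.eval₂_at_apply]

/-- coordinates on `𝓞 K` -/
noncomputable def bas1 (K : Type) [Field K] [NumberField K] :
    Module.Basis (Fin (Module.finrank ℚ K)) ℤ (𝓞 K) :=
  (RingOfIntegers.basis K).reindex (Fintype.equivFinOfCardEq (by
      rw [← Module.finrank_eq_card_chooseBasisIndex, RingOfIntegers.rank K]))

/-- coordinates on `𝓞 K × 𝓞 K`: first the coordinates of `u`, then the coordinates of `v` -/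
noncomputable def bas (K : Type) [Field K] [NumberField K] :
    Module.Basis (Fin (2 * Module.finrank ℚ K)) ℤ (𝓞 K × 𝓞 K) :=
  ((bas1 K).prod (bas1 K)).reindex (finSumFinEquiv.trans (finCongr (two_mul _).symm))

/-- the coordinate map -/
noncomputable def eK (K : Type) [Field K] [NumberField K] :
    (Fin (2 * Module.finrank ℚ K) → ℤ) ≃+ 𝓞 K × 𝓞 K :=
  (bas K).equivFun.symm.toAddEquiv

/-- membership in a box -/
theorem mem_box {K : Type} [Field K] [NumberField K] {τ g : 𝓞 K × 𝓞 K} {X : ℕ} : g ∈ bx (eK K) τ X ↔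
    (∀ i, 0 ≤ (bas1 K).repr (g.1 - τ.1) i ∧ (bas1 K).repr (g.1 - τ.1) i < X) ∧
      ∀ i, 0 ≤ (bas1 K).repr (g.2 - τ.2) i ∧ (bas1 K).repr (g.2 - τ.2) i < X := by
  rw [mem_bx]
  have key : ∀ h : 𝓞 K × 𝓞 K, ∀ i : Fin (Module.finrank ℚ K) ⊕ Fin (Module.finrank ℚ K),
      (eK K).symm h ((finSumFinEquiv.trans (finCongr (two_mul _).symm)) i) =
        Sum.elim ((bas1 K).repr h.1) ((bas1 K).repr h.2) i := by
    intro h i
    change (bas K).equivFun h _ = _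
    unfold bas
    rw [Module.Basis.equivFun_apply, Module.Basis.repr_reindex, Finsupp.mapDomain_equiv_apply,
      Equiv.symm_apply_apply]
    rcases i with i | i <;> simp
  constructor
  · intro h
    constructor
    · intro i
      have := h ((finSumFinEquiv.trans (finCongr (two_mul _).symm)) (Sum.inl i))
      rw [key] at this
      exact this
    · intro i
      have := h ((finSumFinEquiv.trans (finCongr (two_mul _).symm)) (Sum.inr i))
      rw [key] at this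
      exact this
  · rintro ⟨h1, h2⟩ j
    obtain ⟨i, rfl⟩ := (finSumFinEquiv.trans (finCongr (two_mul _).symm)).surjective j
    rw [key]
    rcases i with i | i
    · exact h1 i
    · exact h2 i

/-- places of small norm divide `m` -/
theorem le_nm_of_factorial {m Y0 : ℕ} (h : Y0.factorial ∣ m) (q : Pm K m) : Y0 ≤ nm q.1 := by
  by_contra hlt
  rw [not_le] at hlt
  apply q.2
  have h1 : ((nm q.1 : ℕ) : 𝓞 K) ∈ q.1.asIdeal := Ideal.absNorm_mem _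
  have h2 : nm q.1 ∣ m := (Nat.dvd_factorial (by have := two_le_nm q.1; omega) hlt.le).trans h
  exact q.1.asIdeal.mem_of_dvd (Nat.cast_dvd_cast h2) h1

/-- **the strong form of the sieve statement**: `u ≡ v ≡ r` modulo `m`, also `v` is sifted -/
def SieveS (K : Type) [Field K] [NumberField K] (dm : ℕ) : Prop :=
  ∀ D : ℕ, ∃ J0 : ℕ, 1 ≤ J0 ∧ ∀ J : ℕ, J0 ≤ J → ∀ S : Finset (𝓞 K)[X], S.card ≤ D →
    (∀ P ∈ S, P.Monic ∧ 1 ≤ P.natDegree ∧ P.natDegree ≤ dm ∧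
      Irreducible (P.map (algebraMap (𝓞 K) K))) →
    ∀ m1 : ℕ, m1 ≠ 0 → ∀ Z : Finset K, ∃ (m r : ℕ) (u v : 𝓞 K) (T : ℝ),
      m ≠ 0 ∧ m1 ∣ m ∧ 2 ^ J ∣ m ∧ IsSquare m ∧ r.Coprime m ∧
      (m : 𝓞 K) ∣ u - (r : 𝓞 K) ∧ (m : 𝓞 K) ∣ v - (r : 𝓞 K) ∧
      v ≠ 0 ∧ 0 < T ∧ IsCoprime u ((m : 𝓞 K) * v) ∧ (u : K) / (m * v) ∉ Z ∧
      (∀ p : Pl K, nm p ≡ 1 [MOD 2 ^ J] → v ∉ p.asIdeal) ∧
      ∀ P ∈ S, (∀ φ : K →+* ℂ, (T / 2) ^ P.natDegree ≤ ‖φ (hv P u (m * v))‖ ∧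
          ‖φ (hv P u (m * v))‖ ≤ (2 * T) ^ P.natDegree) ∧
        ∀ p : Pl K, hv P u (m * v) ∈ p.asIdeal → ¬ nm p ≡ 1 [MOD 2 ^ J]

theorem sieveStmt_of_sieveS {dm : ℕ} (h : SieveS K dm) : SieveStmt K dm := by
  intro D
  obtain ⟨J, hJ, h1⟩ := h D
  refine ⟨J, hJ, fun S hS hP m1 hm1 Z => ?_⟩
  obtain ⟨m, r, u, v, T, h2, h3, -, h4, -, -, -, h5, h6, h7, h8, -, h9⟩ :=
    h1 J le_rfl S hS hP m1 hm1 Z
  exact ⟨m, u, v, T, h2, h3, h4, h5, h6, h7, h8, h9⟩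

end Pool.Agent.Helper35.CB
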