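import Pool.Agent.Helper33.CB.EndFam
import Pool.Agent.Helper4.CB.Desc
import Pool.Agent.Helper65.CB.Dom
import Pool.Agent.Helper69.CB.TriDefs
import Pool.Agent.Helper10.TRI.Defs

/-!
# CB: assembly of the final theorem (triangular form, over the algebraic closure, families)
-/

set_option autoImplicit false

namespace Pool.Agent.Helper35.CB

open NumberField Pool.Agent.Helper4.CB Pool.Agent.Helper16.CB
open AlgebraicGeometry CategoryTheory Pool.Agent.Helper15
open Pool.Agent.Helper65.CB Pool.Agent.Helper33.CB Pool.Agent.Helper69.CB Pool.Agent.Helper10.TRI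

/-- the coordinate ring of the product of the conics `x_i ^ 2 = a_i y_i ^ 2 + b_i` over `A` -/
abbrev ConRing {A : Type} [CommRing A] {r : ℕ} (a b : Fin r → A) : Type :=
  MvPolynomial (Fin r × Fin 2) A ⧸ Ideal.span
      (Set.range fun i : Fin r => (MvPolynomial.X (i, 0) ^ 2 -
        MvPolynomial.C (a i) * MvPolynomial.X (i, 1) ^ 2 - MvPolynomial.C (b i) :
        MvPolynomial (Fin r × Fin 2) A))

/-- potential density of the product of conics itself -/
theorem end_fam_spec (K M : Type) [Field K] [NumberField K] [Field M] [NumberField M] [Algebra K M]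
    (A : Type) [CommRing A] [Algebra K A] (r : ℕ) (a b : Fin r → A) (J : ℕ)
    (hd : ∀ f : A, f ≠ 0 → ∃ φ : A →ₐ[K] M, φ f ≠ 0 ∧ ∀ i, HS M J (φ (a i)) (φ (b i))) :
    PotentiallyDense K (Spec (CommRingCat.of (ConRing a b)))
      (Spec.map (CommRingCat.ofHom (algebraMap K (ConRing a b)))) := by
  obtain ⟨L, iL, iA, hfin, hL⟩ := solve M J (Pool.Agent.Helper16.CB.algebraic_block M J)
  let iKL : Algebra K L := ((algebraMap M L).comp (algebraMap K M)).toAlgebra
  have htower : IsScalarTower K M L := IsScalarTower.of_algebraMap_eq (fun x => rfl)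
  have hKM : FiniteDimensional K M := inferInstance
  have hfKL : FiniteDimensional K L := FiniteDimensional.trans K M L
  have hchL : CharZero L := charZero_of_injective_algebraMap (algebraMap M L).injective
  refine ⟨L, inferInstance, inferInstance, inferInstance, ?_⟩
  refine dense_ratPts_spec K L _
    (fun g hg => separateF (M := M) a b (fun d hd0 => ?_) g hg)
  obtain ⟨φ, hφ, hHS⟩ := hd d hd0
  refine ⟨φ, hφ, fun i => ?_⟩
  obtain ⟨hx, hy, X₀, Y₀, hXY⟩ := hL _ _ (hHS i)
  refine ⟨hy, fun Y => ?_⟩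
  have hinj : Function.Injective (algebraMap M L) := (algebraMap M L).injective
  obtain ⟨x', y', h3, h4⟩ := Pool.Agent.Helper56.CB.conic_points
    (a := algebraMap M L (φ (a i))) (b := algebraMap M L (φ (b i)))
    (by rwa [Ne, map_eq_zero_iff _ hinj]) (by rwa [Ne, map_eq_zero_iff _ hinj])
    (x := X₀) (y := Y₀) (z := 1) (Or.inr (Or.inr one_ne_zero))
    (by linear_combination hXY) Y
  exact ⟨x', y', h3, h4⟩

/-- the statement of frame F over the number field `K` -/
def FStmt (dm : ℕ) (K : Type) [Field K] [NumberField K] : Prop :=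
  ∀ {n r : ℕ} {a b : Fin r → MvPolynomial (Fin n) K}, (∀ i, a i ≠ 0) → (∀ i, b i ≠ 0) →
    (∀ i, ∀ P : MvPolynomial (Fin n) K, Irreducible P → P ∣ a i * b i →
      TriDeg dm P ∨ LCU P (a i) (b i)) →
    ∃ J, ∀ f : MvPolynomial (Fin n) K, f ≠ 0 →
      ∃ φ : MvPolynomial (Fin n) K →ₐ[K] K, φ f ≠ 0 ∧ ∀ i, HS K J (φ (a i)) (φ (b i))

/-- **final theorem** from frame F over all number fields -/
theorem t_tri (dm : ℕ) (hF : ∀ (M : Type) [Field M] [NumberField M], FStmt dm M)
    (K : Type) [Field K] [NumberField K] {n r : ℕ} (a b : Fin r → MvPolynomial (Fin n) K)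
    (ha : ∀ i, a i ≠ 0) (hb : ∀ i, b i ≠ 0)
    (hP : ∀ i, ∀ P : MvPolynomial (Fin n) (AlgebraicClosure K), Irreducible P →
      P ∣ MvPolynomial.map (algebraMap K (AlgebraicClosure K)) (a i * b i) → TriDeg dm P ∨
        LCU P (MvPolynomial.map (algebraMap K (AlgebraicClosure K)) (a i))
          (MvPolynomial.map (algebraMap K (AlgebraicClosure K)) (b i)))
    (X : Scheme.{0}) (s : X ⟶ Spec (CommRingCat.of K))
    (hX : DominatedOver K X (Spec (CommRingCat.of (ConRing a b))) s
      (Spec.map (CommRingCat.ofHom (algebraMap K (ConRing a b))))) :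
    PotentiallyDense K X s := by
  obtain ⟨M, hM, hMP⟩ := descend
    (fun d : Fin n → ℕ => ∀ j : Fin n, (∀ i < j, d i = 0) → d j ≤ dm) a b ha hb hP
  have hMn : NumberField M := NumberField.of_module_finite K M
  have hinj : Function.Injective (MvPolynomial.map (σ := Fin n) (algebraMap K M)) :=
    MvPolynomial.map_injective _ (algebraMap K M).injective
  obtain ⟨J, hJ⟩ := hF M (a := fun i => MvPolynomial.map (algebraMap K M) (a i))
    (b := fun i => MvPolynomial.map (algebraMap K M) (b i))
    (fun i => by rw [Ne, map_eq_zero_iff _ hinj]; exact ha i)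
    (fun i => by rw [Ne, map_eq_zero_iff _ hinj]; exact hb i)
    (fun i P hP1 hP2 => hMP i P hP1 (by rwa [map_mul]))
  refine PotentiallyDense.of_dominated hX (end_fam_spec K M (MvPolynomial (Fin n) K) r a b J ?_)
  intro f hf
  obtain ⟨φ, h1, h2⟩ := hJ (MvPolynomial.map (algebraMap K M) f)
    (by rw [Ne, map_eq_zero_iff _ hinj]; exact hf)
  refine ⟨(φ.restrictScalars K).comp (MvPolynomial.mapAlgHom (Algebra.ofId K M)), h1, h2⟩

end Pool.Agent.Helper35.CB
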